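import Pool.Agent.W844.GP.Defs

/-!
# Concatenation of bridges and connections (S_GLUE)
-/

set_option autoImplicit false

open Finset MeasureTheory ProbabilityTheory Filter Topology
open scoped ENNReal

namespace Pool.Agent.W672.GP

open Pool.Agent.W844.VG (V stp nm)
open Pool.Agent.W844.GP

variable {d : ℕ}

theorem wt_append (w : V d → ℝ) (a b : List (V d)) : wt w (a ++ b) = wt w a + wt w b := by
  unfold wt; rw [List.map_append, List.sum_append]

theorem wt_ge (w : V d → ℝ) {K : ℝ} (hK : 0 ≤ K) {n : ℕ} (c : List (V d)) (hc : c.length ≤ n)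
    (h : ∀ z ∈ c, -K ≤ w z) : -(K * n) ≤ wt w c := by
  have h1 : ∀ c : List (V d), (∀ z ∈ c, -K ≤ w z) → -(K * c.length) ≤ wt w c := by
    intro c
    induction c with
    | nil => intro _; simp [wt]
    | cons a c ih =>
      intro h
      have h1 := ih (fun z hz => h z (List.mem_cons_of_mem a hz))
      have h2 := h a List.mem_cons_self
      have e : wt w (a :: c) = w a + wt w c := by unfold wt; simp
      rw [e]
      push_cast [List.length_cons]
      linarith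
  have h2 := h1 c h
  have h3 : K * c.length ≤ K * n := by
    apply mul_le_mul_of_nonneg_left _ hK
    exact_mod_cast hc
  linarith

theorem nd {i : Fin d} {A B : List (V d)} (hA : A.Nodup) (hB : B.Nodup)
    (h : ∀ a ∈ A, ∀ b ∈ B, a i < b i) : (A ++ B).Nodup :=
  List.Nodup.append hA hB fun a ha hb => lt_irrefl _ (h a ha a hb)

theorem glue : S_GLUE := by
  intro d i w K n o x y x' y' z l₁ l₂ hK h1 h2 h3 h4 h5 hz
  obtain ⟨hox, c1, p1, n1, q1⟩ := h1
  obtain ⟨hyx, c2, p2, n2, q2⟩ := h3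
  obtain ⟨hyz, c3, p3, n3, q3⟩ := h5
  obtain ⟨r1, hh1, ht1, s1⟩ := h2
  obtain ⟨r2, hh2, ht2, s2⟩ := h4
  obtain ⟨l₁t, e1⟩ : ∃ t, l₁ = x :: t := List.head?_eq_some_iff.1 hh1
  obtain ⟨l₁i, e1'⟩ : ∃ t, l₁ = t ++ [y] := List.getLast?_eq_some_iff.1 ht1
  obtain ⟨l₂t, e2⟩ : ∃ t, l₂ = x' :: t := List.head?_eq_some_iff.1 hh2
  obtain ⟨l₂i, e2'⟩ : ∃ t, l₂ = t ++ [y'] := List.getLast?_eq_some_iff.1 ht2
  have hxy : x i ≤ y i := by
    have := s1 x (by rw [e1]; exact List.mem_cons_self)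
    exact this.2
  have hxy' : x' i ≤ y' i := by
    have := s2 x' (by rw [e2]; exact List.mem_cons_self)
    exact this.2
  -- the chains
  have k3 : List.IsChain adj (y' :: (c3 ++ [z])) := p3.1
  have k2' : List.IsChain adj (l₂ ++ (c3 ++ [z])) := by
    rw [e2', List.append_assoc]
    simp only [List.cons_append, List.nil_append]
    rw [List.isChain_split]
    exact ⟨by rw [← e2']; exact r2.1, k3⟩
  have k2 : List.IsChain adj (y :: (c2 ++ (l₂ ++ (c3 ++ [z])))) := by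
    rw [e2] at k2' ⊢
    have : y :: (c2 ++ (x' :: l₂t ++ (c3 ++ [z]))) = (y :: c2) ++ x' :: (l₂t ++ (c3 ++ [z])) := by
      simp
    rw [this, List.isChain_split]
    exact ⟨by simpa using p2.1, by simpa using k2'⟩
  have k1' : List.IsChain adj (l₁ ++ (c2 ++ (l₂ ++ (c3 ++ [z])))) := by
    rw [e1', List.append_assoc]
    simp only [List.cons_append, List.nil_append]
    rw [List.isChain_split]
    exact ⟨by rw [← e1']; exact r1.1, k2⟩
  have k1 : List.IsChain adj (o :: (c1 ++ (l₁ ++ (c2 ++ (l₂ ++ (c3 ++ [z])))))) := by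
    rw [e1] at k1' ⊢
    have : o :: (c1 ++ (x :: l₁t ++ (c2 ++ (l₂ ++ (c3 ++ [z]))))) =
        (o :: c1) ++ x :: (l₁t ++ (c2 ++ (l₂ ++ (c3 ++ [z])))) := by
      simp
    rw [this, List.isChain_split]
    exact ⟨by simpa using p1.1, by simpa using k1'⟩
  -- heights
  have g3 : ∀ v ∈ c3 ++ [z], y' i < v i ∧ v i ≤ z i := by
    intro v hv
    rcases List.mem_append.1 hv with h | h
    · exact ⟨(q3 v h).1, (q3 v h).2.1.le⟩
    · rw [List.mem_singleton.1 h]; exact ⟨hyz, le_rfl⟩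
  have g2' : ∀ v ∈ l₂ ++ (c3 ++ [z]), x' i ≤ v i ∧ v i ≤ z i := by
    intro v hv
    rcases List.mem_append.1 hv with h | h
    · exact ⟨(s2 v h).1, (s2 v h).2.trans hyz.le⟩
    · exact ⟨hxy'.trans (g3 v h).1.le, (g3 v h).2⟩
  have g2 : ∀ v ∈ c2 ++ (l₂ ++ (c3 ++ [z])), y i < v i ∧ v i ≤ z i := by
    intro v hv
    rcases List.mem_append.1 hv with h | h
    · exact ⟨(q2 v h).1, (q2 v h).2.1.le.trans (hxy'.trans hyz.le)⟩
    · exact ⟨lt_of_lt_of_le hyx (g2' v h).1, (g2' v h).2⟩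
  have g1' : ∀ v ∈ l₁ ++ (c2 ++ (l₂ ++ (c3 ++ [z]))), x i ≤ v i ∧ v i ≤ z i := by
    intro v hv
    rcases List.mem_append.1 hv with h | h
    · exact ⟨(s1 v h).1, (s1 v h).2.trans (hyx.le.trans (hxy'.trans hyz.le))⟩
    · exact ⟨hxy.trans (g2 v h).1.le, (g2 v h).2⟩
  have g1 : ∀ v ∈ c1 ++ (l₁ ++ (c2 ++ (l₂ ++ (c3 ++ [z])))), o i < v i ∧ v i ≤ z i := by
    intro v hv
    rcases List.mem_append.1 hv with h | h
    · exact ⟨(q1 v h).1, (q1 v h).2.1.le.trans (hxy.trans (hyx.le.trans (hxy'.trans hyz.le)))⟩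
    · exact ⟨lt_of_lt_of_le hox (g1' v h).1, (g1' v h).2⟩
  -- nodup
  have m3 : (c3 ++ [z]).Nodup := (List.nodup_cons.1 p3.2).2
  have m2c : c2.Nodup := (List.nodup_append.1 (List.nodup_cons.1 p2.2).2).1
  have m1c : c1.Nodup := (List.nodup_append.1 (List.nodup_cons.1 p1.2).2).1
  have m2' : (l₂ ++ (c3 ++ [z])).Nodup :=
    nd (i := i) r2.2 m3 fun a ha b hb => lt_of_le_of_lt (s2 a ha).2 (g3 b hb).1
  have m2 : (c2 ++ (l₂ ++ (c3 ++ [z]))).Nodup :=
    nd (i := i) m2c m2' fun a ha b hb => lt_of_lt_of_le (q2 a ha).2.1 (g2' b hb).1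
  have m1' : (l₁ ++ (c2 ++ (l₂ ++ (c3 ++ [z])))).Nodup :=
    nd (i := i) r1.2 m2 fun a ha b hb => lt_of_le_of_lt (s1 a ha).2 (g2 b hb).1
  have m1 : (c1 ++ (l₁ ++ (c2 ++ (l₂ ++ (c3 ++ [z]))))).Nodup :=
    nd (i := i) m1c m1' fun a ha b hb => lt_of_lt_of_le (q1 a ha).2.1 (g1' b hb).1
  refine ⟨c1 ++ (l₁ ++ (c2 ++ (l₂ ++ (c3 ++ [z])))), ⟨⟨k1, ?_⟩, ?_, g1⟩, ?_, ?_⟩
  · rw [List.nodup_cons]
    exact ⟨fun h => lt_irrefl _ (g1 o h).1, m1⟩
  · rw [List.getLast?_eq_some_iff]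
    exact ⟨o :: (c1 ++ (l₁ ++ (c2 ++ (l₂ ++ c3)))), by simp⟩
  · simp only [List.length_append, List.length_singleton]
    omega
  · rw [wt_append, wt_append, wt_append, wt_append, wt_append]
    have a1 := wt_ge w hK c1 n1 fun v hv => (q1 v hv).2.2
    have a2 := wt_ge w hK c2 n2 fun v hv => (q2 v hv).2.2
    have a3 := wt_ge w hK c3 n3 fun v hv => (q3 v hv).2.2
    have a4 : wt w [z] = w z := by unfold wt; simp
    rw [a4]
    linarith

end Pool.Agent.W672.GP
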