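import Pool.Agent.W844.GP.Defs

/-!
# Selection of a lower and an upper structure (S_SEL)
-/

set_option autoImplicit false

open Finset MeasureTheory ProbabilityTheory Filter Topology
open scoped ENNReal

namespace Pool.Agent.W672.GP

open Pool.Agent.W844.VG (V stp nm)
open Pool.Agent.W844.GP

open Classical in
/-- disjointification along a key -/
def dj {α Ω κ : Type} [LinearOrder κ] (P : Finset α) (key : α → κ) (D : α → Set Ω) (y : α) :
    Set Ω :=
  D y \ ⋃ y' ∈ P.filter (fun y' => key y' < key y), D y'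

theorem dj_sub {α Ω κ : Type} [LinearOrder κ] (P : Finset α) (key : α → κ) (D : α → Set Ω)
    (y : α) : dj P key D y ⊆ D y := Set.sdiff_subset

theorem dj_union {α Ω κ : Type} [LinearOrder κ] (P : Finset α) (key : α → κ)
    (D : α → Set Ω) : ⋃ y ∈ P, dj P key D y = ⋃ y ∈ P, D y := by
  classical
  apply Set.Subset.antisymm
  · exact Set.iUnion₂_mono fun y _ => dj_sub P key D y
  · intro w hw
    simp only [Set.mem_iUnion, exists_prop] at hw
    obtain ⟨y, hy, hwy⟩ := hw
    obtain ⟨m, hm, hmin⟩ := Finset.exists_min_image (P.filter (fun y => w ∈ D y)) key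
      ⟨y, Finset.mem_filter.2 ⟨hy, hwy⟩⟩
    obtain ⟨hmP, hmD⟩ := Finset.mem_filter.1 hm
    simp only [Set.mem_iUnion, exists_prop]
    refine ⟨m, hmP, hmD, ?_⟩
    simp only [Set.mem_iUnion, exists_prop, not_exists, not_and]
    intro y' hy' hD
    obtain ⟨h1, h2⟩ := Finset.mem_filter.1 hy'
    exact absurd (hmin y' (Finset.mem_filter.2 ⟨h1, hD⟩)) (not_le.2 h2)

theorem dj_disj {α Ω κ : Type} [LinearOrder κ] (P : Finset α) (key : α → κ)
    (hk : Function.Injective key) (D : α → Set Ω) {y y' : α} (hy : y ∈ P) (hy' : y' ∈ P)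
    (hne : y ≠ y') : Disjoint (dj P key D y) (dj P key D y') := by
  classical
  rw [Set.disjoint_left]
  intro w h1 h2
  rcases lt_trichotomy (key y) (key y') with h | h | h
  · apply h2.2
    simp only [Set.mem_iUnion, exists_prop]
    exact ⟨y, Finset.mem_filter.2 ⟨hy, h⟩, h1.1⟩
  · exact hne (hk h)
  · apply h1.2
    simp only [Set.mem_iUnion, exists_prop]
    exact ⟨y', Finset.mem_filter.2 ⟨hy', h⟩, h2.1⟩

theorem dj_meas {α Ω κ : Type} [MeasurableSpace Ω] [LinearOrder κ] (P : Finset α) (key : α → κ)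
    (D : α → Set Ω) (hD : ∀ y ∈ P, MeasurableSet (D y)) {y : α} (hy : y ∈ P) :
    MeasurableSet (dj P key D y) := by
  classical
  refine (hD y hy).diff ?_
  exact Finset.measurableSet_biUnion _ fun y' hy' => hD y' (Finset.mem_filter.1 hy').1

theorem dj_dep {d : ℕ} {κ : Type} [LinearOrder κ] (P : Finset (V d)) (key : V d → κ)
    (D : V d → Set (V d → ℝ)) (S : V d → Set (V d))
    (hD : ∀ y ∈ P, DependsOn (fun w => w ∈ D y) (S y)) {y : V d} (hy : y ∈ P)
    (hS : ∀ y' ∈ P, key y' < key y → S y' ⊆ S y) :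
    DependsOn (fun w => w ∈ dj P key D y) (S y) := by
  classical
  intro w w' hww
  have h1 : (w ∈ D y) = (w' ∈ D y) := hD y hy hww
  have h2 : ∀ y' ∈ P.filter (fun y' => key y' < key y), (w ∈ D y') = (w' ∈ D y') := by
    intro y' hy'
    obtain ⟨h3, h4⟩ := Finset.mem_filter.1 hy'
    exact hD y' h3 fun a ha => hww a (hS y' h3 h4 ha)
  apply propext
  unfold dj
  simp only [Set.mem_sdiff, Set.mem_iUnion, exists_prop, not_exists, not_and]
  rw [h1]
  constructor
  · rintro ⟨h3, h4⟩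
    exact ⟨h3, fun y' hy' hc => h4 y' hy' ((h2 y' hy').symm ▸ hc)⟩
  · rintro ⟨h3, h4⟩
    exact ⟨h3, fun y' hy' hc => h4 y' hy' (h2 y' hy' ▸ hc)⟩

theorem triple (h : S_INDK) {d : ℕ} (ν : Measure ℝ) [IsProbabilityMeasure ν]
    {A B C : Set (V d → ℝ)} {S T R : Set (V d)} (hA : MeasurableSet A) (hB : MeasurableSet B)
    (hC : MeasurableSet C) (dA : DependsOn (fun w => w ∈ A) S) (dB : DependsOn (fun w => w ∈ B) T)
    (dC : DependsOn (fun w => w ∈ C) R) (hST : Disjoint S T) (hSR : Disjoint S R)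
    (hTR : Disjoint T R) : law ν d (A ∩ B ∩ C) = law ν d A * law ν d B * law ν d C := by
  have h1 := h d ν (Fin 3) Finset.univ ![A, B, C] ![S, T, R] (by
    intro k _
    fin_cases k
    · exact hA
    · exact hB
    · exact hC) (by
    intro k _
    fin_cases k
    · exact dA
    · exact dB
    · exact dC) (by
    intro k _ k' _ hne
    fin_cases k <;> fin_cases k'
    · exact absurd rfl hne
    · exact hST
    · exact hSR
    · exact hST.symm
    · exact absurd rfl hne
    · exact hTR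
    · exact hSR.symm
    · exact hTR.symm
    · exact absurd rfl hne)
  rw [Fin.prod_univ_three] at h1
  have e : (⋂ k ∈ (Finset.univ : Finset (Fin 3)), (![A, B, C] : Fin 3 → Set (V d → ℝ)) k) =
      A ∩ B ∩ C := by
    ext w
    simp only [Finset.mem_univ, Set.iInter_true, Set.mem_iInter, Set.mem_inter_iff]
    constructor
    · intro hw
      exact ⟨⟨hw 0, hw 1⟩, hw 2⟩
    · rintro ⟨⟨ha, hb⟩, hc⟩ k
      fin_cases k
      · exact ha
      · exact hb
      · exact hc
  rw [e] at h1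
  exact h1

theorem sel : S_INDK → S_SEL := by
  classical
  intro hind d i ν _ P Q D U N hD hU hN
  obtain ⟨enc, henc⟩ := Countable.exists_injective_nat (V d)
  set key1 : V d → ℤ ×ₗ ℕ := fun y => toLex (y i, enc y) with hkey1
  set key2 : V d → ℤ ×ₗ ℕ := fun y => toLex (-y i, enc y) with hkey2
  have inj1 : Function.Injective key1 := by
    intro a b hab
    have := toLex.injective hab
    exact henc (Prod.ext_iff.1 this).2
  have inj2 : Function.Injective key2 := by
    intro a b hab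
    have := toLex.injective hab
    exact henc (Prod.ext_iff.1 this).2
  have lt1 : ∀ a b, key1 a < key1 b → a i ≤ b i := by
    intro a b hab
    rcases (Prod.Lex.toLex_lt_toLex).1 hab with h | h
    · exact le_of_lt h
    · exact le_of_eq h.1
  have lt2 : ∀ a b, key2 a < key2 b → b i ≤ a i := by
    intro a b hab
    rcases (Prod.Lex.toLex_lt_toLex).1 hab with h | h
    · have : -a i < -b i := h
      linarith
    · have : -a i = -b i := h.1
      linarith
  set D' := dj P key1 D with hD'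
  set U' := dj Q key2 U with hU'
  have mD : ∀ y ∈ P, MeasurableSet (D' y) := fun y hy =>
    dj_meas P key1 D (fun y hy => (hD y hy).1) hy
  have mU : ∀ y ∈ Q, MeasurableSet (U' y) := fun y hy =>
    dj_meas Q key2 U (fun y hy => (hU y hy).1) hy
  have depD : ∀ y ∈ P, DependsOn (fun w => w ∈ D' y) {z | z i ≤ y i} := fun y hy =>
    dj_dep P key1 D (fun y => {z | z i ≤ y i}) (fun y hy => (hD y hy).2) hy
      fun y' _ hlt z hz => le_trans hz (lt1 _ _ hlt)
  have depU : ∀ y ∈ Q, DependsOn (fun w => w ∈ U' y) {z | y i ≤ z i} := fun y hy =>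
    dj_dep Q key2 U (fun y => {z | y i ≤ z i}) (fun y hy => (hU y hy).2) hy
      fun y' _ hlt z hz => le_trans (lt2 _ _ hlt) hz
  have sD : law ν d (⋃ y ∈ P, D y) = ∑ y ∈ P, law ν d (D' y) := by
    rw [← dj_union P key1 D]
    exact measure_biUnion_finset (fun a ha b hb hab => dj_disj P key1 inj1 D ha hb hab) mD
  have sU : law ν d (⋃ y ∈ Q, U y) = ∑ y ∈ Q, law ν d (U' y) := by
    rw [← dj_union Q key2 U]
    exact measure_biUnion_finset (fun a ha b hb hab => dj_disj Q key2 inj2 U ha hb hab) mU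
  have hsub : (⋃ p ∈ P ×ˢ Q, D' p.1 ∩ N p.1 p.2 ∩ U' p.2) ⊆
      ⋃ y ∈ P, ⋃ x ∈ Q, D y ∩ N y x ∩ U x := by
    intro w hw
    simp only [Set.mem_iUnion, exists_prop] at hw ⊢
    obtain ⟨p, hp, ⟨h1, h2⟩, h3⟩ := hw
    obtain ⟨hp1, hp2⟩ := Finset.mem_product.1 hp
    exact ⟨p.1, hp1, p.2, hp2, ⟨dj_sub _ _ _ _ h1, h2⟩, dj_sub _ _ _ _ h3⟩
  have hval : law ν d (⋃ p ∈ P ×ˢ Q, D' p.1 ∩ N p.1 p.2 ∩ U' p.2) =
      ∑ p ∈ P ×ˢ Q, law ν d (D' p.1 ∩ N p.1 p.2 ∩ U' p.2) := by
    refine measure_biUnion_finset ?_ ?_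
    · intro p hp q hq hpq
      obtain ⟨hp1, hp2⟩ := Finset.mem_product.1 hp
      obtain ⟨hq1, hq2⟩ := Finset.mem_product.1 hq
      refine Set.disjoint_left.2 ?_
      rintro w ⟨⟨h1, _⟩, h2⟩ ⟨⟨h3, _⟩, h4⟩
      by_cases h : p.1 = q.1
      · have h' : p.2 ≠ q.2 := fun h' => hpq (Prod.ext h h')
        exact Set.disjoint_left.1 (dj_disj Q key2 inj2 U hp2 hq2 h') h2 h4
      · exact Set.disjoint_left.1 (dj_disj P key1 inj1 D hp1 hq1 h) h1 h3
    · intro p hp
      obtain ⟨hp1, hp2⟩ := Finset.mem_product.1 hp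
      exact ((mD _ hp1).inter (hN _ hp1 _ hp2).2.1).inter (mU _ hp2)
  calc 2⁻¹ * law ν d (⋃ y ∈ P, D y) * law ν d (⋃ x ∈ Q, U x)
      = ∑ p ∈ P ×ˢ Q, law ν d (D' p.1) * 2⁻¹ * law ν d (U' p.2) := by
        rw [sD, sU, mul_comm (2⁻¹ : ℝ≥0∞), Finset.sum_mul (s := P), Finset.sum_mul_sum,
          Finset.sum_product]
    _ ≤ ∑ p ∈ P ×ˢ Q, law ν d (D' p.1 ∩ N p.1 p.2 ∩ U' p.2) := by
        apply Finset.sum_le_sum
        intro p hp
        obtain ⟨hp1, hp2⟩ := Finset.mem_product.1 hp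
        obtain ⟨h1, h2, h3, h4⟩ := hN _ hp1 _ hp2
        rw [triple hind ν (mD _ hp1) h2 (mU _ hp2) (depD _ hp1) h3 (depU _ hp2)]
        · gcongr
        · rw [Set.disjoint_left]
          intro z hz hz2
          exact absurd hz2.1 (not_lt.2 hz)
        · rw [Set.disjoint_left]
          intro z hz hz2
          have a1 : z i ≤ p.1 i := hz
          have a2 : p.2 i ≤ z i := hz2
          linarith
        · rw [Set.disjoint_left]
          intro z hz hz2
          exact absurd hz.2 (not_lt.2 hz2)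
    _ = law ν d (⋃ p ∈ P ×ˢ Q, D' p.1 ∩ N p.1 p.2 ∩ U' p.2) := hval.symm
    _ ≤ _ := measure_mono hsub

end Pool.Agent.W672.GP
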